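import Mathlib

/-!
MP_c4d24c_al, Q1: a monoid with the ascending chain condition on principal left ideals and on
principal right ideals, but not on principal two-sided ideals.
-/

set_option autoImplicit false

namespace Pool.Agent.Results.MP_c4d24c_al.OneSidedNotTwoSided

/-- The principal left ideal `H x`. -/
def LIdeal {H : Type} [Monoid H] (x : H) : Set H := {z | ∃ h : H, z = h * x}

/-- The principal right ideal `x H`. -/
def RIdeal {H : Type} [Monoid H] (x : H) : Set H := {z | ∃ h : H, z = x * h}

/-- The principal two-sided ideal `H x H`. -/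
def TIdeal {H : Type} [Monoid H] (x : H) : Set H := {z | ∃ h k : H, z = h * x * k}

/-- The ascending chain condition on principal left ideals. -/
def ACCPL (H : Type) [Monoid H] : Prop :=
  ∀ x : ℕ → H, (∀ n, LIdeal (x n) ⊆ LIdeal (x (n + 1))) →
    ∃ N, ∀ n ≥ N, LIdeal (x n) = LIdeal (x N)

/-- The ascending chain condition on principal right ideals. -/
def ACCPR (H : Type) [Monoid H] : Prop :=
  ∀ x : ℕ → H, (∀ n, RIdeal (x n) ⊆ RIdeal (x (n + 1))) →
    ∃ N, ∀ n ≥ N, RIdeal (x n) = RIdeal (x N)

/-- triples of natural numbers and a sink -/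
abbrev X : Type := Option (ℕ × ℕ × ℕ)

/-- the two letters acting on the left -/
def stepL : Bool → X → X
  | _, none => none
  | true, some (i, k, j) => some (i + 1, k, j)
  | false, some (i + 1, k, j) => some (i, k, j)
  | false, some (0, k + 1, j) => some (0, k, j + 1)
  | false, some (0, 0, _) => none

/-- the two letters acting on the right -/
def stepR : Bool → X → X
  | _, none => none
  | true, some (i, k, j) => some (i, k, j + 1)
  | false, some (i, k, j + 1) => some (i, k, j)
  | false, some (i, k + 1, 0) => some (i + 1, k, 0)
  | false, some (_, 0, 0) => none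

theorem step_comm (s t : Bool) (z : X) : stepL s (stepR t z) = stepR t (stepL s z) := by
  rcases z with _ | ⟨i, k, j⟩
  · rfl
  · rcases s with _ | _ <;> rcases t with _ | _ <;> rcases i with _ | i <;>
      rcases k with _ | k <;> rcases j with _ | j <;> rfl

/-- left action of words -/
def actL (l : List Bool) (z : X) : X := l.foldr stepL z

/-- right action of words -/
def actR (z : X) (r : List Bool) : X := r.foldl (fun z t => stepR t z) z

theorem actL_append (l l' : List Bool) (z : X) : actL (l ++ l') z = actL l (actL l' z) := by
  simp [actL]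

theorem actR_append (r r' : List Bool) (z : X) : actR z (r ++ r') = actR (actR z r) r' := by
  simp [actR]

theorem stepL_actR (s : Bool) (r : List Bool) : ∀ z, stepL s (actR z r) = actR (stepL s z) r := by
  induction r with
  | nil => intro z; rfl
  | cons t r ih =>
    intro z
    change stepL s (actR (stepR t z) r) = actR (stepR t (stepL s z)) r
    rw [ih, step_comm]

theorem act_comm (l r : List Bool) (z : X) : actL l (actR z r) = actR (actL l z) r := by
  induction l with
  | nil => rfl
  | cons s l ih =>
    change stepL s (actL l (actR z r)) = actR (stepL s (actL l z)) r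
    rw [ih, stepL_actR]

theorem actL_none (l : List Bool) : actL l none = none := by
  induction l with
  | nil => rfl
  | cons s l ih =>
    change stepL s (actL l none) = none
    rw [ih]; cases s <;> rfl

theorem actR_none (r : List Bool) : actR none r = none := by
  induction r with
  | nil => rfl
  | cons s l ih =>
    change actR (stepR s none) l = none
    cases s <;> exact ih

/-- The elements of the monoid. -/
inductive El : Type
  | g (l r : List Bool) : El
  | x (z : X) : El

namespace El

/-- the product -/
def mul : El → El → El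
  | g l r, g l' r' => g (l ++ l') (r ++ r')
  | g l _, x z => x (actL l z)
  | x z, g _ r => x (actR z r)
  | x _, x _ => x none

instance : Mul El := ⟨mul⟩
instance : One El := ⟨g [] []⟩

theorem one_def : (1 : El) = g [] [] := rfl
theorem gg (l r l' r' : List Bool) : g l r * g l' r' = g (l ++ l') (r ++ r') := rfl
theorem gx (l r : List Bool) (z : X) : g l r * x z = x (actL l z) := rfl
theorem xg (l r : List Bool) (z : X) : x z * g l r = x (actR z r) := rfl
theorem xx (z z' : X) : x z * x z' = x none := rfl

instance : Monoid El where
  mul_assoc a b c := by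
    rcases a with ⟨l, r⟩ | z <;> rcases b with ⟨l', r'⟩ | z' <;> rcases c with ⟨l'', r''⟩ | z'' <;>
      simp only [gg, gx, xg, xx, List.append_assoc, actL_append, actR_append, act_comm,
        actL_none, actR_none]
  one_mul a := by
    rcases a with ⟨l, r⟩ | z <;> simp [one_def, gg, gx, actL]
  mul_one a := by
    rcases a with ⟨l, r⟩ | z <;> simp [one_def, gg, xg, actR]

end El

theorem actL_inv (l : List Bool) : ∀ (i k j i' k' j' : ℕ),
    actL l (some (i', k', j')) = some (i, k, j) → k + j = k' + j' ∧ k ≤ k' := by
  induction l with
  | nil =>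
    intro i k j i' k' j' h
    simp only [actL, List.foldr_nil, Option.some.injEq, Prod.mk.injEq] at h
    omega
  | cons s l ih =>
    intro i k j i' k' j' h
    change stepL s (actL l (some (i', k', j'))) = some (i, k, j) at h
    rcases h1 : actL l (some (i', k', j')) with _ | ⟨i1, k1, j1⟩
    · rw [h1] at h
      cases s <;> simp [stepL] at h
    · rw [h1] at h
      have h2 := ih _ _ _ _ _ _ h1
      rcases s with _ | _ <;> rcases i1 with _ | i1 <;> rcases k1 with _ | k1 <;>
        simp only [stepL, Option.some.injEq, Prod.mk.injEq, reduceCtorEq] at h <;> omega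

theorem actR_inv (r : List Bool) : ∀ (i k j i' k' j' : ℕ),
    actR (some (i', k', j')) r = some (i, k, j) → k + i = k' + i' ∧ k ≤ k' := by
  induction r with
  | nil =>
    intro i k j i' k' j' h
    simp only [actR, List.foldl_nil, Option.some.injEq, Prod.mk.injEq] at h
    omega
  | cons s r ih =>
    intro i k j i' k' j' h
    change actR (stepR s (some (i', k', j'))) r = some (i, k, j) at h
    rcases h1 : stepR s (some (i', k', j')) with _ | ⟨i1, k1, j1⟩
    · rw [h1, actR_none] at h
      simp at h
    · rw [h1] at h
      have h2 := ih _ _ _ _ _ _ h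
      rcases s with _ | _ <;> rcases j' with _ | j' <;> rcases k' with _ | k' <;>
        simp only [stepR, Option.some.injEq, Prod.mk.injEq, reduceCtorEq] at h1 <;> omega

theorem actL_down (i k j : ℕ) : actL (List.replicate i false) (some (i, k, j)) =
    some (0, k, j) := by
  induction i with
  | zero => rfl
  | succ i ih =>
    rw [List.replicate_succ', actL_append]
    exact ih

theorem actL_up (i k j : ℕ) : actL (List.replicate i true) (some (0, k, j)) =
    some (i, k, j) := by
  induction i with
  | zero => rfl
  | succ i ih =>
    rw [List.replicate_succ]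
    change stepL true (actL (List.replicate i true) (some (0, k, j))) = _
    rw [ih]; rfl

theorem actR_down (i k j : ℕ) : actR (some (i, k, j)) (List.replicate j false) =
    some (i, k, 0) := by
  induction j with
  | zero => rfl
  | succ j ih =>
    rw [List.replicate_succ]
    exact ih

theorem actR_up (i k j : ℕ) : actR (some (i, k, 0)) (List.replicate j true) =
    some (i, k, j) := by
  induction j with
  | zero => rfl
  | succ j ih =>
    rw [List.replicate_succ', actR_append, ih]
    rfl

namespace El

/-- the rank for the left ideals -/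
def rkL : El → ℕ × ℕ
  | g l r => (0, l.length + r.length)
  | x (some (_, _, j)) => (1, j)
  | x none => (2, 0)

/-- the rank for the right ideals -/
def rkR : El → ℕ × ℕ
  | g l r => (0, l.length + r.length)
  | x (some (i, _, _)) => (1, i)
  | x none => (2, 0)

/-- the lexicographic order -/
abbrev lt : ℕ × ℕ → ℕ × ℕ → Prop := Prod.Lex (· < ·) (· < ·)

theorem wf : WellFounded lt := WellFounded.prod_lex wellFounded_lt wellFounded_lt

theorem keyL (h y : El) : lt (rkL y) (rkL (h * y)) ∨ ∃ h', y = h' * (h * y) := by
  rcases h with ⟨l, r⟩ | z <;> rcases y with ⟨l', r'⟩ | z'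
  · rw [gg]
    by_cases hl : l.length + r.length = 0
    · right
      refine ⟨1, ?_⟩
      have h1 : l = [] := List.length_eq_zero_iff.1 (by omega)
      have h2 : r = [] := List.length_eq_zero_iff.1 (by omega)
      rw [one_mul, h1, h2]; rfl
    · left
      refine Prod.Lex.right _ ?_
      simp only [List.length_append]
      omega
  · rw [gx]
    rcases z' with _ | ⟨i', k', j'⟩
    · right
      exact ⟨1, by rw [one_mul, actL_none]⟩
    · rcases h1 : actL l (some (i', k', j')) with _ | ⟨i, k, j⟩
      · left
        exact Prod.Lex.left _ _ (by norm_num)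
      · have h2 := actL_inv _ _ _ _ _ _ _ h1
        by_cases hj : j' = j
        · right
          have hk : k = k' := by omega
          subst hj hk
          refine ⟨g (List.replicate i' true ++ List.replicate i false) [], ?_⟩
          rw [gx, actL_append, actL_down, actL_up]
        · left
          refine Prod.Lex.right _ ?_
          change j' < j
          omega
  · rw [xg]
    left
    rcases actR z r' with _ | ⟨i, k, j⟩
    · exact Prod.Lex.left _ _ (by norm_num)
    · exact Prod.Lex.left _ _ (by norm_num)
  · rw [xx]
    rcases z' with _ | ⟨i', k', j'⟩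
    · right
      exact ⟨1, by rw [one_mul]⟩
    · left
      exact Prod.Lex.left _ _ (by norm_num)

theorem keyR (h y : El) : lt (rkR y) (rkR (y * h)) ∨ ∃ h', y = (y * h) * h' := by
  rcases h with ⟨l, r⟩ | z <;> rcases y with ⟨l', r'⟩ | z'
  · rw [gg]
    by_cases hl : l.length + r.length = 0
    · right
      refine ⟨1, ?_⟩
      have h1 : l = [] := List.length_eq_zero_iff.1 (by omega)
      have h2 : r = [] := List.length_eq_zero_iff.1 (by omega)
      rw [mul_one, h1, h2, List.append_nil, List.append_nil]
    · left
      refine Prod.Lex.right _ ?_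
      simp only [List.length_append]
      omega
  · rw [xg]
    rcases z' with _ | ⟨i', k', j'⟩
    · right
      exact ⟨1, by rw [mul_one, actR_none]⟩
    · rcases h1 : actR (some (i', k', j')) r with _ | ⟨i, k, j⟩
      · left
        exact Prod.Lex.left _ _ (by norm_num)
      · have h2 := actR_inv _ _ _ _ _ _ _ h1
        by_cases hj : i' = i
        · right
          have hk : k = k' := by omega
          subst hj hk
          refine ⟨g [] (List.replicate j false ++ List.replicate j' true), ?_⟩
          rw [xg, actR_append, actR_down, actR_up]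
        · left
          refine Prod.Lex.right _ ?_
          change i' < i
          omega
  · rw [gx]
    left
    rcases actL l' z with _ | ⟨i, k, j⟩
    · exact Prod.Lex.left _ _ (by norm_num)
    · exact Prod.Lex.left _ _ (by norm_num)
  · rw [xx]
    rcases z' with _ | ⟨i', k', j'⟩
    · right
      exact ⟨1, by rw [mul_one]⟩
    · left
      exact Prod.Lex.left _ _ (by norm_num)

theorem accpl : ACCPL El := by
  intro a ha
  obtain ⟨x, ⟨N, rfl⟩, hx⟩ := wf.has_min (Set.range fun n => rkL (a n)) ⟨_, 0, rfl⟩
  refine ⟨N, fun n hn => ?_⟩
  have hmono : ∀ m, LIdeal (a N) ⊆ LIdeal (a (N + m)) := by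
    intro m
    induction m with
    | zero => exact subset_rfl
    | succ m ih => exact ih.trans (ha _)
  obtain ⟨m, rfl⟩ := Nat.exists_eq_add_of_le hn
  refine Set.Subset.antisymm ?_ (hmono m)
  obtain ⟨h, hh⟩ : a N ∈ LIdeal (a (N + m)) := hmono m ⟨1, by rw [one_mul]⟩
  rcases keyL h (a (N + m)) with h1 | ⟨h', h1⟩
  · rw [← hh] at h1
    exact absurd h1 (hx _ ⟨N + m, rfl⟩)
  · rw [← hh] at h1
    rintro z ⟨k, rfl⟩
    exact ⟨k * h', by rw [h1, mul_assoc]⟩

theorem accpr : ACCPR El := by
  intro a ha
  obtain ⟨x, ⟨N, rfl⟩, hx⟩ := wf.has_min (Set.range fun n => rkR (a n)) ⟨_, 0, rfl⟩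
  refine ⟨N, fun n hn => ?_⟩
  have hmono : ∀ m, RIdeal (a N) ⊆ RIdeal (a (N + m)) := by
    intro m
    induction m with
    | zero => exact subset_rfl
    | succ m ih => exact ih.trans (ha _)
  obtain ⟨m, rfl⟩ := Nat.exists_eq_add_of_le hn
  refine Set.Subset.antisymm ?_ (hmono m)
  obtain ⟨h, hh⟩ : a N ∈ RIdeal (a (N + m)) := hmono m ⟨1, by rw [mul_one]⟩
  rcases keyR h (a (N + m)) with h1 | ⟨h', h1⟩
  · rw [← hh] at h1
    exact absurd h1 (hx _ ⟨N + m, rfl⟩)
  · rw [← hh] at h1
    rintro z ⟨k, rfl⟩
    exact ⟨h' * k, by rw [h1, mul_assoc]⟩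

end El

/-- There is a monoid with the ascending chain condition on principal left ideals and on principal
right ideals which has a strictly ascending infinite chain of principal two-sided ideals. -/
theorem result : ∃ (H : Type) (_ : Monoid H), ACCPL H ∧ ACCPR H ∧
    ∃ x : ℕ → H, ∀ n, TIdeal (x n) ⊂ TIdeal (x (n + 1)) := by
  refine ⟨El, inferInstance, El.accpl, El.accpr, fun n => .x (some (0, n, 0)), fun n => ?_⟩
  refine (Set.ssubset_iff_of_subset ?_).2 ⟨.x (some (0, n + 1, 0)), ⟨1, 1, by simp⟩, ?_⟩
  · rintro z ⟨p, q, rfl⟩
    refine ⟨p * .g [false] [], .g [] [false] * q, ?_⟩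
    have : (El.g [false] [] * El.x (some (0, n + 1, 0))) * El.g [] [false] =
        El.x (some (0, n, 0)) := rfl
    change p * El.x (some (0, n, 0)) * q = p * El.g [false] [] * El.x (some (0, n + 1, 0)) *
      (El.g [] [false] * q)
    rw [← this]
    simp only [mul_assoc]
  · rintro ⟨p, q, h⟩
    change El.x (some (0, n + 1, 0)) = p * El.x (some (0, n, 0)) * q at h
    rcases p with ⟨l, r⟩ | z
    · rcases q with ⟨l', r'⟩ | z'
      · rw [El.gx, El.xg, El.x.injEq] at h
        rcases h1 : actL l (some (0, n, 0)) with _ | ⟨i, k, j⟩
        · rw [h1, actR_none] at h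
          simp at h
        · rw [h1] at h
          have h2 := actL_inv _ _ _ _ _ _ _ h1
          have h3 := actR_inv _ _ _ _ _ _ _ h.symm
          omega
      · rw [El.gx, El.xx] at h
        simp at h
    · rw [El.xx] at h
      rcases q with ⟨l', r'⟩ | z'
      · rw [El.xg, actR_none] at h
        simp at h
      · rw [El.xx] at h
        simp at h

end Pool.Agent.Results.MP_c4d24c_al.OneSidedNotTwoSided
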